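import Pool.Agent.Helper97.Nag.Goals

/-!
# Packet NAG-GTW: generation in degree two
-/

set_option autoImplicit false

noncomputable section

namespace Pool.Agent.Helper92.Nag.GTW

open Pool.Agent.Helper97
open Pool.Agent.Helper97.Nag
open Pool.Agent.Helper97.Tate (OO KK SS cf IsTh qe Th iO ser)

variable {F : Type} [Field F]

theorem cc_ser (f : SS F) (r : ℤ) :
    PowerSeries.constantCoeff (ser f r) = (PowerSeries.constantCoeff f).coeff r := by
  rw [← PowerSeries.coeff_zero_eq_constantCoeff_apply, ← PowerSeries.coeff_zero_eq_constantCoeff_apply]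
  simp [ser, cf]

theorem coeff_term (a : F) (s n : ℤ) :
    (LaurentPolynomial.C a * LaurentPolynomial.T s : LaurentPolynomial F).coeff n =
      if s = n then a else 0 := by
  rw [← LaurentPolynomial.single_eq_C_mul_T, AddMonoidAlgebra.coeff_single,
    Finsupp.single_apply]

/-- the functional -/
def phi {n : ℕ} (v : Fin n → F) (p : LaurentPolynomial F) : F := ∑ r : Fin n, p.coeff ((r : ℕ) : ℤ) * v r

/-- the extension of the functional -/
def ww {n : ℕ} (v : Fin n → F) (s : ℤ) : F :=
  if h : 0 ≤ s ∧ s < (n : ℤ) then v ⟨s.toNat, by omega⟩ else 0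

theorem phi_add {n : ℕ} (v : Fin n → F) (p q : LaurentPolynomial F) :
    phi v (p + q) = phi v p + phi v q := by
  unfold phi
  rw [← Finset.sum_add_distrib]
  apply Finset.sum_congr rfl
  intro r _
  rw [AddMonoidAlgebra.coeff_add, Finsupp.add_apply, add_mul]

theorem phi_term {n : ℕ} (v : Fin n → F) (a : F) (s : ℤ) :
    phi v (LaurentPolynomial.C a * LaurentPolynomial.T s) = a * ww v s := by
  unfold phi ww
  by_cases h : 0 ≤ s ∧ s < (n : ℤ)
  · rw [dif_pos h, Finset.sum_eq_single (⟨s.toNat, by omega⟩ : Fin n)]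
    · rw [coeff_term, if_pos]
      simp only
      omega
    · intro r _ hr
      rw [coeff_term, if_neg, zero_mul]
      intro h1
      apply hr
      ext
      simp only
      omega
    · intro h1
      exact absurd (Finset.mem_univ _) h1
  · rw [dif_neg h, mul_zero]
    apply Finset.sum_eq_zero
    intro r _
    rw [coeff_term, if_neg, zero_mul]
    intro h1
    apply h
    have := r.2
    omega

/-- the linear algebra at `q = 0` -/
theorem solve (k : ℕ) (hk : 3 ≤ k) (c : F) (hc : c ≠ 1) (w : ℤ → F)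
    (ha : w 0 + (1 + c) * w k = 0)
    (hb : ∀ i : ℤ, 1 ≤ i → i < k → w i + w (k + i) = 0)
    (hcc : w 2 + c * w (k + 2) = 0)
    (hd : ∀ i : ℤ, 1 ≤ i → i < k → w (2 + i) = 0) :
    ∀ n : ℤ, 0 ≤ n → n < k + k → w n = 0 := by
  have hA : ∀ n : ℤ, 3 ≤ n → n ≤ k + 1 → w n = 0 := by
    intro n h1 h2
    have := hd (n - 2) (by omega) (by omega)
    rwa [show 2 + (n - 2) = n by ring] at this
  have hk2 : w (k + 2) = 0 := by
    have h1 := hb 2 (by norm_num) (by omega)
    have h2 : (c - 1) * w (k + 2) = 0 := by linear_combination hcc - h1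
    rcases mul_eq_zero.1 h2 with h3 | h3
    · exact absurd (sub_eq_zero.1 h3) hc
    · exact h3
  intro n h0 hn
  rcases lt_or_ge n 3 with h3 | h3
  · rcases (by omega : n = 0 ∨ n = 1 ∨ n = 2) with rfl | rfl | rfl
    · rw [hA k (by omega) (by omega), mul_zero, add_zero] at ha
      exact ha
    · have h1 := hb 1 (by norm_num) (by omega)
      rw [hA (k + 1) (by omega) (by omega), add_zero] at h1
      exact h1
    · rw [hk2, mul_zero, add_zero] at hcc
      exact hcc
  · rcases le_or_gt n (k + 1) with h4 | h4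
    · exact hA n h3 h4
    · rcases eq_or_ne n (k + 2) with h5 | h5
      · rw [h5]
        exact hk2
      · have h1 := hb (n - k) (by omega) (by omega)
        rw [show (k : ℤ) + (n - k) = n by ring, hA (n - k) (by omega) (by omega), zero_add] at h1
        exact h1

/-- the `2 k` products -/
def ee (k : ℕ) (c : F) : Fin (k + k) → SS F :=
  Fin.append (fun ρ : Fin k => Th k 0 1 * Th k ((ρ : ℕ) : ℤ) c)
    (fun ρ : Fin k => Th k 2 1 * Th k ((ρ : ℕ) : ℤ) c)

theorem isTh_prod (h1 : Tate.S_MUL) (h3 : Tate.S_THC) (k : ℕ) (hk : 3 ≤ k) (c : F) (hc : c ≠ 0)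
    (s : ℤ) (hs : 0 ≤ s) (hsk : s < k) (ρ : Fin k) :
    IsTh (k + k) c (Th k s 1 * Th k ((ρ : ℕ) : ℤ) c) := by
  have e1 := (h3 F k s 1 one_ne_zero hs hsk).2.1
  have e2 := (h3 F k ((ρ : ℕ) : ℤ) c hc (by positivity) (by exact_mod_cast ρ.2)).2.1
  have := (h1 F).2 k k 1 c _ _ e1 e2
  rwa [one_mul] at this

theorem isTh_ee (h1 : Tate.S_MUL) (h3 : Tate.S_THC) (k : ℕ) (hk : 3 ≤ k) (c : F) (hc : c ≠ 0)
    (i : Fin (k + k)) : IsTh (k + k) c (ee k c i) := by
  unfold ee
  refine Fin.addCases (fun ρ => ?_) (fun ρ => ?_) i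
  · rw [Fin.append_left]
    exact isTh_prod h1 h3 k hk c hc 0 le_rfl (by omega) ρ
  · rw [Fin.append_right]
    exact isTh_prod h1 h3 k hk c hc 2 (by norm_num) (by omega) ρ

theorem cc_ee_left (h3 : Tate.S_THC) (k : ℕ) (hk : 3 ≤ k) (c : F) (hc : c ≠ 0) (ρ : Fin k) :
    PowerSeries.constantCoeff (Th k 0 1 * Th k ((ρ : ℕ) : ℤ) c) =
      if (ρ : ℕ) = 0 then LaurentPolynomial.C 1 * LaurentPolynomial.T 0 +
        LaurentPolynomial.C (1 + c) * LaurentPolynomial.T k +
          LaurentPolynomial.C c * LaurentPolynomial.T (k + k)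
      else LaurentPolynomial.C 1 * LaurentPolynomial.T (ρ : ℕ) +
        LaurentPolynomial.C 1 * LaurentPolynomial.T (k + (ρ : ℕ)) := by
  rw [map_mul, (h3 F k 0 1 one_ne_zero le_rfl (by omega)).2.2,
    (h3 F k ((ρ : ℕ) : ℤ) c hc (by positivity) (by exact_mod_cast ρ.2)).2.2]
  by_cases h : (ρ : ℕ) = 0
  · simp only [h, Nat.cast_zero, if_true, LaurentPolynomial.T_zero, LaurentPolynomial.T_add,
      map_one, map_add, one_mul, mul_one]
    ring
  · have h' : ¬ ((ρ : ℕ) : ℤ) = 0 := by exact_mod_cast h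
    simp only [h, h', if_true, if_false, LaurentPolynomial.T_add, map_one, one_mul]
    ring

theorem cc_ee_right (h3 : Tate.S_THC) (k : ℕ) (hk : 3 ≤ k) (c : F) (hc : c ≠ 0) (ρ : Fin k) :
    PowerSeries.constantCoeff (Th k 2 1 * Th k ((ρ : ℕ) : ℤ) c) =
      if (ρ : ℕ) = 0 then LaurentPolynomial.C 1 * LaurentPolynomial.T 2 +
        LaurentPolynomial.C c * LaurentPolynomial.T (k + 2)
      else LaurentPolynomial.C 1 * LaurentPolynomial.T (2 + (ρ : ℕ)) := by
  rw [map_mul, (h3 F k 2 1 one_ne_zero (by norm_num) (by omega)).2.2,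
    (h3 F k ((ρ : ℕ) : ℤ) c hc (by positivity) (by exact_mod_cast ρ.2)).2.2]
  by_cases h : (ρ : ℕ) = 0
  · simp only [h, Nat.cast_zero, if_true, LaurentPolynomial.T_add, map_one, one_mul,
      (by norm_num : ¬ (2 : ℤ) = 0), if_false]
    ring
  · have h' : ¬ ((ρ : ℕ) : ℤ) = 0 := by exact_mod_cast h
    simp only [h, h', if_false, LaurentPolynomial.T_add, map_one, one_mul,
      (by norm_num : ¬ (2 : ℤ) = 0)]

/-- the matrix of the products -/
def AA (k : ℕ) (c : F) : Matrix (Fin (k + k)) (Fin (k + k)) (OO F) :=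
  Matrix.of fun i r => ser (ee k c i) ((r : ℕ) : ℤ)

theorem det_unit (h3 : Tate.S_THC) (k : ℕ) (hk : 3 ≤ k) (c : F) (hc : c ≠ 0) (hc1 : c ≠ 1) :
    IsUnit (AA k c).det := by
  rw [PowerSeries.isUnit_iff_constantCoeff, isUnit_iff_ne_zero, RingHom.map_det]
  intro hdet
  obtain ⟨v, hv0, hv⟩ := Matrix.exists_mulVec_eq_zero_iff.2 hdet
  apply hv0
  have hrow : ∀ i : Fin (k + k), phi v (PowerSeries.constantCoeff (ee k c i)) = 0 := by
    intro i
    have h1 := congrFun hv i
    simp only [Matrix.mulVec, dotProduct, RingHom.mapMatrix_apply, Matrix.map_apply, AA,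
      Matrix.of_apply, Pi.zero_apply, cc_ser] at h1
    exact h1
  have hL : ∀ ρ : Fin k, phi v (PowerSeries.constantCoeff
      (Th k 0 1 * Th k ((ρ : ℕ) : ℤ) c)) = 0 := by
    intro ρ
    have := hrow (Fin.castAdd k ρ)
    rwa [ee, Fin.append_left] at this
  have hR : ∀ ρ : Fin k, phi v (PowerSeries.constantCoeff
      (Th k 2 1 * Th k ((ρ : ℕ) : ℤ) c)) = 0 := by
    intro ρ
    have := hrow (Fin.natAdd k ρ)
    rwa [ee, Fin.append_right] at this
  have hw2 : ww v ((k : ℤ) + k) = 0 := by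
    unfold ww
    rw [dif_neg]
    push_cast
    omega
  have key := solve k hk c hc1 (ww v) (by
      have := hL ⟨0, by omega⟩
      rw [cc_ee_left h3 k hk c hc, if_pos rfl, phi_add, phi_add, phi_term, phi_term, phi_term,
        hw2] at this
      linear_combination this) (by
      intro i h1 h2
      have := hL ⟨i.toNat, by omega⟩
      rw [cc_ee_left h3 k hk c hc, if_neg (by simp only; omega), phi_add, phi_term, phi_term]
        at this
      simp only [one_mul] at this
      rwa [Int.toNat_of_nonneg (by omega)] at this) (by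
      have := hR ⟨0, by omega⟩
      rw [cc_ee_right h3 k hk c hc, if_pos rfl, phi_add, phi_term, phi_term] at this
      linear_combination this) (by
      intro i h1 h2
      have := hR ⟨i.toNat, by omega⟩
      rw [cc_ee_right h3 k hk c hc, if_neg (by simp only; omega), phi_term] at this
      simp only [one_mul] at this
      rwa [Int.toNat_of_nonneg (by omega)] at this)
  funext r
  have h1 := key ((r : ℕ) : ℤ) (by omega) (by have := r.2; omega)
  unfold ww at h1
  rw [dif_pos (by have := r.2; constructor <;> omega)] at h1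
  simpa using h1

theorem t (h1 : Tate.S_MUL) (h3 : Tate.S_THC) (h4 : Tate.S_BAS) : S_GTW := by
  intro F _ k c hk hc hc1 ρ
  have hu := det_unit h3 k hk c hc hc1
  set f : SS F := Th k 1 1 * Th k ((ρ : ℕ) : ℤ) c with hf
  have hfT : IsTh (k + k) c f := isTh_prod h1 h3 k hk c hc 1 (by norm_num) (by omega) ρ
  have hB := h4 F (k + k) c (by omega) hc
  set b : Fin (k + k) → OO F := fun r => ser f ((r : ℕ) : ℤ) with hb
  set x : Fin (k + k) → OO F := Matrix.vecMul b (AA k c)⁻¹ with hx
  have hxb : Matrix.vecMul x (AA k c) = b := by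
    rw [hx, Matrix.vecMul_vecMul, Matrix.nonsing_inv_mul _ hu, Matrix.vecMul_one]
  have hE : f = ∑ i : Fin (k + k), iO (x i) * ee k c i := by
    have e1 : ∀ i, ee k c i = ∑ r : Fin (k + k), iO (AA k c i r) * Th (k + k) ((r : ℕ) : ℤ) c :=
      fun i => hB.1 _ (isTh_ee h1 h3 k hk c hc i)
    calc f = ∑ r : Fin (k + k), iO (b r) * Th (k + k) ((r : ℕ) : ℤ) c := hB.1 f hfT
      _ = ∑ r : Fin (k + k), ∑ i : Fin (k + k),
          iO (x i) * (iO (AA k c i r) * Th (k + k) ((r : ℕ) : ℤ) c) := by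
        apply Finset.sum_congr rfl
        intro r _
        have e2 : b r = ∑ i : Fin (k + k), x i * AA k c i r := by
          rw [← hxb]
          rfl
        rw [e2, map_sum, Finset.sum_mul]
        apply Finset.sum_congr rfl
        intro i _
        rw [map_mul, mul_assoc]
      _ = ∑ i : Fin (k + k), ∑ r : Fin (k + k),
          iO (x i) * (iO (AA k c i r) * Th (k + k) ((r : ℕ) : ℤ) c) := Finset.sum_comm
      _ = ∑ i : Fin (k + k), iO (x i) * ee k c i := by
        apply Finset.sum_congr rfl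
        intro i _
        rw [← Finset.mul_sum, ← e1 i]
  refine ⟨fun ρ' => x (Fin.castAdd k ρ'), fun ρ' => x (Fin.natAdd k ρ'), ?_⟩
  rw [hE, Fin.sum_univ_add, ← Finset.sum_add_distrib]
  apply Finset.sum_congr rfl
  intro ρ' _
  rw [ee, Fin.append_left, Fin.append_right]
  ring

end Pool.Agent.Helper92.Nag.GTW
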